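import Pool.Agent.helper13.U4.SpecD

set_option autoImplicit false

namespace Pool.Agent.U4

open Pool.Agent.UL

theorem PF (h1 : PRM_stmt) : PF_stmt := by
  intro k q h v x hP hL hH c τ hc hτ1 hτ2
  obtain ⟨b, e, hb, he, hτ, -, hb1, hpr⟩ := h1 k q h v hP τ (by omega) hτ2
  have hb1' := hb1 hτ1
  obtain ⟨h', hh'⟩ : ∃ h', h = 4 * h' := by
    obtain ⟨j, hj⟩ : ∃ j, k = j + 2 := ⟨k - 2, by have := hP.hk; omega⟩
    exact ⟨2 ^ j, by rw [hP.hh, hj, pow_add]; ring⟩
  have hh : 4 ≤ h := by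
    rw [hP.hh]
    calc 4 = 2 ^ 2 := by norm_num
      _ ≤ 2 ^ k := Nat.pow_le_pow_right (by norm_num) hP.hk
  have hq := hP.hq
  have hv := hP.hv
  have hv2 : 14 * h ≤ 2 * h * q := by nlinarith
  obtain ⟨g, hg, hge⟩ : ∃ g, (g = 0 ∨ g = 2) ∧ ((e + g) % 4 = 0 ∨ (e + g) % 4 = 3) := by
    by_cases h2 : e % 4 = 0 ∨ e % 4 = 3
    · exact ⟨0, Or.inl rfl, by omega⟩
    · exact ⟨2, Or.inr rfl, by omega⟩
  have key : ∀ a, a % 2 = 1 → a ≤ 9 → 8 ≤ b + a → b + a ≤ 11 →
      (2 * q - a) * h + (h - 1 - g) < v ∧ (b + a - 1) * h + (e + g) < v ∧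
      x ((2 * q - a) * h + (h - 1 - g)) (2 * h + c) = true ∧
      x ((b + a - 1) * h + (e + g)) (2 * h + 8) = true := by
    intro a ha1 ha2 ha3 ha4
    obtain ⟨B, hB⟩ : ∃ B, B + a = 2 * q := ⟨2 * q - a, by omega⟩
    have hBe : 2 * q - a = B := by omega
    have hBh : B * h + a * h = 2 * h * q := by
      have : (B + a) * h = 2 * q * h := by rw [hB]
      linarith
    have hah : h ≤ a * h := Nat.le_mul_of_pos_left h (by omega)
    rw [hBe]
    obtain ⟨n, hn⟩ : ∃ n, b + a - 1 = n := ⟨_, rfl⟩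
    rw [hn]
    have hn1 : 7 ≤ n := by omega
    have hn2 : n ≤ 10 := by omega
    refine ⟨by omega, ?_, ?_, ?_⟩
    · interval_cases n <;> omega
    · have hd1 : (h - 1 - g) % 2 = 1 := by omega
      have hd2 : h - 1 - g < h := by omega
      have hd3 : B * h + (h - 1 - g) ≤ v := by omega
      interval_cases c
      · exact hH.b0 B (h - 1 - g) (by omega) (by omega) hd2 hd3
      · exact hH.b1 B (h - 1 - g) (by omega) hd1 hd2 hd3
      · exact hH.b2 B (h - 1 - g) (by omega) (by omega) hd1 hd2 hd3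
    · apply hH.b8
      · interval_cases n <;> omega
      · interval_cases n <;> omega
      · interval_cases n <;> omega
  obtain ⟨m, hm, hmb⟩ : ∃ m, (m = 8 ∨ m = 9) ∧ (m + b) % 2 = 1 := by
    rcases Nat.mod_two_eq_zero_or_one b with h2 | h2
    · exact ⟨9, Or.inr rfl, by omega⟩
    · exact ⟨8, Or.inl rfl, by omega⟩
  have k1 := key (m - b) (by omega) (by omega) (by omega) (by omega)
  have k2 := key (m + 2 - b) (by omega) (by omega) (by omega) (by omega)
  have s1 := hpr (m - b) g (by omega) (by omega) (by omega)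
  have s2 := hpr (m + 2 - b) g (by omega) (by omega) (by omega)
  refine ⟨2 * h + c, 2 * h + 8, (2 * q - (m - b)) * h + (h - 1 - g), (b + (m - b) - 1) * h + (e + g),
    (2 * q - (m + 2 - b)) * h + (h - 1 - g), (b + (m + 2 - b) - 1) * h + (e + g), by omega, ?_,
    by omega, s1, s2, k1.1, k1.2.1, k2.1, k2.2.1, k1.2.2.1, k1.2.2.2, k2.2.2.1, k2.2.2.2⟩
  intro hcon
  rw [hcon] at s1
  have e1 : b + (m - b) - 1 = m - 1 := by omega
  have e2 : b + (m + 2 - b) - 1 = m + 1 := by omega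
  rw [e1] at s1
  rw [e2] at s2
  rcases hm with rfl | rfl
  · simp only [Nat.reduceSub, Nat.reduceAdd] at s1 s2
    omega
  · simp only [Nat.reduceSub, Nat.reduceAdd] at s1 s2
    omega

end Pool.Agent.U4
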