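import Pool.Agent.helper13.U4.SpecY

set_option autoImplicit false

namespace Pool.Agent.U4

open Pool.Agent.UL

theorem YST_four (h1 : AM1_stmt) (h2 : KLB_stmt) {x y : ℕ → ℕ → Bool} {Q : ℕ → ℕ → Prop}
    (hO : One x y Q) (t0 r0 t1 r1 t2 r2 t3 r3 : ℕ)
    (n : [(t0, r0), (t1, r1), (t2, r2), (t3, r3)].Nodup)
    (q0 : Q t0 r0) (q1 : Q t1 r1) (q2 : Q t2 r2) (q3 : Q t3 r3)
    (x0 : x t0 r0 = true) (x1 : x t1 r1 = true) (x2 : x t2 r2 = true) (x3 : x t3 r3 = true)
    (e : y t0 r0 = ex1 (y t1 r1) (y t2 r2) (y t3 r3)) :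
    y t0 r0 = false ∧ y t1 r1 = false ∧ y t2 r2 = false ∧ y t3 r3 = false := by
  have h3 := h1 x y Q [(t0, r0), (t1, r1), (t2, r2), (t3, r3)] hO n (by
    intro p hp
    simp only [List.mem_cons, List.not_mem_nil, or_false] at hp
    rcases hp with rfl | rfl | rfl | rfl
    · exact ⟨q0, x0⟩
    · exact ⟨q1, x1⟩
    · exact ⟨q2, x2⟩
    · exact ⟨q3, x3⟩)
  have h4 : [y t0 r0, y t1 r1, y t2 r2, y t3 r3].count true ≤ 1 := h3
  rw [e] at h4 ⊢
  exact h2.2.2 _ _ _ h4

theorem YST_tp (h1 : AM1_stmt) (h2 : KLB_stmt) {x y : ℕ → ℕ → Bool} {h v T : ℕ}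
    (hO : One x y (Om h v T)) (hT : T < v) (hhT : h + 2 ≤ T) (hY : YR (h + 2) (2 * h + 2) y)
    (t r : ℕ) (ht : t ≤ h) (hr : r ≤ 2 * h + 2)
    (x0 : x t r = true) (x1 : x (t + 1) r = true) (x2 : x (t + 1) (r + 1) = true)
    (x3 : x (t + 1) (r + 2) = true) :
    y t r = false ∧ y (t + 1) r = false ∧ y (t + 1) (r + 1) = false ∧ y (t + 1) (r + 2) = false := by
  refine YST_four h1 h2 hO t r (t + 1) r (t + 1) (r + 1) (t + 1) (r + 2) ?_ ?_ ?_ ?_ ?_ x0 x1 x2 x3
    (hY t (by omega) r hr)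
  · simp
  · left; exact ⟨by omega, by omega, by omega⟩
  · left; exact ⟨by omega, by omega, by omega⟩
  · left; exact ⟨by omega, by omega, by omega⟩
  · left; exact ⟨by omega, by omega, by omega⟩

theorem YST (h1 : AM1_stmt) (h2 : KLB_stmt) : YST_stmt := by
  intro k q h v T x y hP hL hH hT hhT hO hY hw
  have hh : 4 ≤ h := by
    rw [hP.hh]
    calc 4 = 2 ^ 2 := by norm_num
      _ ≤ 2 ^ k := Nat.pow_le_pow_right (by norm_num) hP.hk
  have hh2 : h % 2 = 0 := by
    rw [hP.hh]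
    obtain ⟨j, hj⟩ : ∃ j, k = j + 1 := ⟨k - 1, by have := hP.hk; omega⟩
    rw [hj, pow_succ]
    omega
  have tp := YST_tp h1 h2 hO hT hhT hY
  have wr : ∀ i, 4 * i + 4 ≤ 2 * h → y 0 (4 * i + 2) = false ∧ y 0 (4 * i + 3) = false ∧
      y 0 (4 * i + 4) = false := by
    intro i hi
    obtain ⟨a0, a1, a2, a3⟩ := hL.y1 i hi
    have h5 := YST_four h1 h2 hO (v - 1) (4 * i) 0 (4 * i + 2) 0 (4 * i + 3) 0 (4 * i + 4)
      (by
        have hv : v - 1 ≠ 0 := by omega
        simp [hv])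
      (by right; exact ⟨by omega, by omega, by omega⟩)
      (by left; exact ⟨by omega, by omega, by omega⟩)
      (by left; exact ⟨by omega, by omega, by omega⟩)
      (by left; exact ⟨by omega, by omega, by omega⟩) a0 a1 a2 a3 (hw i hi)
    exact h5.2
  have o3 : ∀ t, t % 2 = 1 → t < h → y t (2 * h + 2) = false ∧ y (t + 1) (2 * h + 2) = false ∧
      y (t + 1) (2 * h + 3) = false := by
    intro t ht hth
    obtain ⟨b0, b1, b2, -⟩ := tp t (2 * h + 2) (by omega) (by omega) (hH.a2 t (by omega) (by omega))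
      (hH.a2 (t + 1) (by omega) (by omega)) (hH.a3 (t + 1) (by omega) (by omega) (by omega))
      (hH.a4 (t + 1) (by omega) (by omega) (by omega))
    exact ⟨b0, b1, b2⟩
  refine ⟨⟨?_, ?_, ?_, ?_, ?_, ?_, ?_⟩, (wr 0 (by omega)).1, (wr 0 (by omega)).2.1⟩
  · intro t ht r hr
    exact hY t (by omega) r (by omega)
  · intro j hj hjh
    obtain ⟨i, rfl⟩ : ∃ i, j = i + 1 := ⟨j - 1, by omega⟩
    have h5 := (wr i (by omega)).2.2
    have h6 : 4 * (i + 1) = 4 * i + 4 := by ring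
    rw [h6]
    exact h5
  · intro e he he2 heh
    obtain ⟨a0, a1, a2⟩ := hL.y2 e he he2 heh
    have a3 : x (e + 1) (2 * e + 1) = true := by
      rcases Nat.lt_or_ge e h with hlt | hge
      · exact hL.y2' e he he2 hlt
      · have : e = h := by omega
        subst this
        have h5 := hH.b1 1 1 (by omega) (by omega) (by omega) (by omega)
        rw [one_mul] at h5
        exact h5
    have e1 : 2 * e = 2 * e - 1 + 1 := by omega
    have e2 : 2 * e + 1 = 2 * e - 1 + 2 := by omega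
    rw [e1] at a2
    rw [e2] at a3
    have h6 : 2 * (e : ℕ) - 1 + 1 - 1 = 2 * e - 1 := by omega
    have h5 := tp e (2 * e - 1) (by omega) (by omega) a0 a1 (by simpa [h6] using a2) (by simpa using a3)
    rw [← e1, ← e2] at h5
    exact h5
  · intro t ht hth
    rcases Nat.mod_two_eq_zero_or_one t with h5 | h5
    · obtain ⟨s, rfl⟩ : ∃ s, t = s + 1 := ⟨t - 1, by omega⟩
      exact (o3 s (by omega) (by omega)).2.1
    · exact (o3 t h5 (by omega)).1
  · intro e he he2 heh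
    obtain ⟨s, rfl⟩ : ∃ s, e = s + 1 := ⟨e - 1, by omega⟩
    exact (o3 s (by omega) (by omega)).2.2
  · intro e he he2 heh
    exact (tp e 0 (by omega) (by omega) (hL.r0 e (by omega)) (hL.r0 (e + 1) (by omega))
      (hL.r1 (e + 1) (by omega) (by omega)) (hL.r2 (e + 1) (by omega) (by omega) (by omega))).2
  · have h5 := h1 x y (Om h v T) [(1, 0), (1, 1), (2, 0), (2, 3)] hO (by decide) (by
      intro p hp
      simp only [List.mem_cons, List.not_mem_nil, or_false] at hp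
      rcases hp with rfl | rfl | rfl | rfl
      · exact ⟨by left; exact ⟨by omega, by omega, by omega⟩, hL.r0 1 (by omega)⟩
      · exact ⟨by left; exact ⟨by omega, by omega, by omega⟩, hL.r1 1 (by omega) (by omega)⟩
      · exact ⟨by left; exact ⟨by omega, by omega, by omega⟩, hL.r0 2 (by omega)⟩
      · exact ⟨by left; exact ⟨by omega, by omega, by omega⟩, (hL.y2 2 (by omega) (by omega) (by omega)).1⟩)
    have h6 : [y 1 0, y 1 1, y 2 0, y 2 3].count true ≤ 1 := h5
    have h7 := hY 1 (by omega) 0 (by omega)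
    have h8 := hY 1 (by omega) 1 (by omega)
    simp only [Nat.reduceAdd] at h7 h8
    rw [h7, h8] at h6 ⊢
    exact h2.2.1 _ _ _ _ h6

end Pool.Agent.U4
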