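import Pool.Agent.helper13.U4.SpecY

set_option autoImplicit false

namespace Pool.Agent.U4

open Pool.Agent.UL

theorem YVA_pos (v t r ρ σ : ℕ) (h1 : r + 3 ≤ ρ) (h2 : t < v) :
    0 < ((v : ℤ) * ρ + 2 * σ) - (v : ℤ) * r - 2 * t := by
  obtain ⟨d, rfl⟩ : ∃ d, ρ = r + 3 + d := ⟨ρ - (r + 3), by omega⟩
  have h3 : (0 : ℤ) ≤ (v : ℤ) * d := by positivity
  have h4 : (t : ℤ) < v := by exact_mod_cast h2
  have h5 : (0 : ℤ) ≤ σ := by positivity
  push_cast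
  nlinarith

theorem YVA (h1 : YRC_stmt) : YVA_stmt := by
  intro k q h v F ρ σ hP hF
  have hh : 4 ≤ h := by
    rw [hP.hh]
    calc 4 = 2 ^ 2 := by norm_num
      _ ≤ 2 ^ k := Nat.pow_le_pow_right (by norm_num) hP.hk
  have hv : 15 * h ≤ v + 1 := by
    rw [hP.hv]
    have := hP.hq
    nlinarith
  refine ⟨?_, ?_, ?_⟩
  · intro hρ t ht r hr
    exact (h1 v F hF _ t r).1 (YVA_pos v t r ρ σ (by omega) (by omega))
  · intro hρ t ht r hr
    exact (h1 v F hF _ t r).1 (YVA_pos v t r ρ σ (by omega) (by omega))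
  · intro hρ
    refine ⟨?_, ?_⟩
    · intro t ht r hr
      exact (h1 v F hF _ t r).1 (YVA_pos v t r ρ σ (by omega) (by omega))
    · intro i hi
      have h2 := (h1 v F hF ((v : ℤ) * ρ + 2 * σ) (v - 1) (4 * i)).1
        (YVA_pos v (v - 1) (4 * i) ρ σ (by omega) (by omega))
      have h3 : v - 1 + 1 = v := by omega
      rw [h2, h3, (h1 v F hF ((v : ℤ) * ρ + 2 * σ) 0 (4 * i)).2,
        (h1 v F hF ((v : ℤ) * ρ + 2 * σ) 0 (4 * i + 1)).2,
        (h1 v F hF ((v : ℤ) * ρ + 2 * σ) 0 (4 * i + 2)).2]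

end Pool.Agent.U4
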